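import Pool.Agent.N856.JL.Stm
import Pool.Agent.N916.GB.Tr

/-!
# Project JL (helper856), job JL-BOX: the joint count in a box (helper588)

Port of `Pool/Agent/R426/QJ/Box.lean` (helper656) and `Pool/Agent/R426/QK/BOX.lean` to the systems of
project GB.
-/

set_option autoImplicit false
set_option linter.unusedVariables false

open scoped Classical

namespace Pool.Agent.N588.JL

open Finset
open Pool.Agent.Y703.CQ (nr sg)
open Pool.Agent.N973.ND (uu)
open Pool.Agent.N916.GB (Po Gd ps HB S_EQ Vt sy nr_recip)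
open Pool.Agent.N856.JA.QK (prs c2)
open Pool.Agent.N856.JA.QJ (La)
open Pool.Agent.N856.JL

theorem z2_self (a : ZMod 2) : a + a = 0 := by
  revert a
  decide

theorem z2_swap {a b c : ZMod 2} (h : a + b = c) : b = a + c := by
  revert h
  revert a b c
  decide

theorem fcc {α : Type} {s : Finset α} {p q : α → Prop} {i1 : DecidablePred p}
    {i2 : DecidablePred q} (h : ∀ x ∈ s, (p x ↔ q x)) :
    (@Finset.filter α p i1 s).card = (@Finset.filter α q i2 s).card := by
  congr 1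
  ext x
  rw [Finset.mem_filter, Finset.mem_filter]
  exact and_congr_right fun hx => h x hx

/-- the label of a prime with respect to the small primes -/
noncomputable def lb (S₀ : Finset ℕ) (x : ℕ) : (S₀ → ZMod 2) × ZMod 2 :=
  (fun u => nr x u, uu x)

/-- the good labels -/
def LN {ι : Type} (S₀ : Finset ℕ) (β : ι → (S₀ → ZMod 2) × ZMod 2) : Prop :=
  ∀ w : S₀ → ZMod 2, (∃ u, w u ≠ 0) → ∃ k, (β k).2 = 0 ∧ ∑ u, w u * (β k).1 u ≠ 0

/-- extension by zero -/
noncomputable def ez0 {S₀ : Finset ℕ} (v : S₀ → ZMod 2) (n : ℕ) : ZMod 2 :=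
  if h : n ∈ S₀ then v ⟨n, h⟩ else 0

theorem ez0_coe {S₀ : Finset ℕ} (v : S₀ → ZMod 2) (u : S₀) : ez0 v u = v u := by
  unfold ez0
  rw [dif_pos u.2]

theorem sumW {S T : Finset ℕ} (hST : S ⊆ T) (h : ℕ → ZMod 2) :
    ∑ v ∈ univ.filter (fun u : T => (u : ℕ) ∈ S), h v = ∑ v : S, h v := by
  rw [Finset.sum_coe_sort S h, Finset.sum_filter,
    Finset.sum_coe_sort T (fun v => if v ∈ S then h v else 0), ← Finset.sum_filter]
  congr 1
  ext x
  rw [Finset.mem_filter]
  exact ⟨fun h => h.2, fun h => ⟨hST h, h⟩⟩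

theorem sumW' {S T : Finset ℕ} (hST : S ⊆ T) (h : ℕ → ZMod 2) :
    ∑ v ∈ univ.filter (fun u : T => (u : ℕ) ∈ S), h v = ∑ v ∈ S, h v := by
  rw [sumW hST, Finset.sum_coe_sort S h]

section base

variable {ι : Type} [Fintype ι] [LinearOrder ι] {S₀ : Finset ℕ} {p : ι → ℕ}

omit [Fintype ι] [LinearOrder ι] in
theorem cs_sw (hpr : ∀ i, Po (p i)) (hS₀ : ∀ u ∈ S₀, Po u) (hd : ∀ i, p i ∉ S₀) (k : ι) {u : ℕ}
    (hu : u ∈ S₀) : nr u (p k) = nr (p k) u + uu u * uu (p k) := by
  have hne : p k ≠ u := fun h => hd k (by rw [h]; exact hu)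
  have h := nr_recip (hpr k) (hS₀ u hu) hne
  rw [z2_swap h, mul_comm]

omit [LinearOrder ι] in
theorem nd_iff : (∀ w : ℕ → ZMod 2, (∃ u ∈ S₀, w u ≠ 0) →
    ∃ q ∈ univ.image p, uu q = 0 ∧ ∑ u ∈ S₀, w u * nr q u ≠ 0) ↔ LN S₀ (fun i => lb S₀ (p i)) := by
  unfold LN
  have e2 : ∀ (w : ℕ → ZMod 2) (i : ι),
      ∑ u ∈ S₀, w u * nr (p i) u = ∑ u : S₀, w u * (lb S₀ (p i)).1 u := by
    intro w i
    rw [← Finset.sum_coe_sort S₀]
    rfl
  constructor
  · intro h w hw
    have hw' : ∃ u ∈ S₀, ez0 w u ≠ 0 := by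
      obtain ⟨u, hu⟩ := hw
      exact ⟨u, u.2, by rw [ez0_coe]; exact hu⟩
    obtain ⟨x, hx, hx1, hx2⟩ := h (ez0 w) hw'
    rw [Finset.mem_image] at hx
    obtain ⟨i, -, rfl⟩ := hx
    rw [e2] at hx2
    simp only [ez0_coe] at hx2
    exact ⟨i, hx1, hx2⟩
  · intro h w hw
    have hw' : ∃ u : S₀, (fun u : S₀ => w u) u ≠ 0 := by
      obtain ⟨u, hu0, hu⟩ := hw
      exact ⟨⟨u, hu0⟩, hu⟩
    obtain ⟨i, hi1, hi2⟩ := h (fun u => w u) hw'
    refine ⟨p i, Finset.mem_image_of_mem _ (Finset.mem_univ _), hi1, ?_⟩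
    rw [e2]
    exact hi2

omit [LinearOrder ι] in
theorem sum_un (hp : Function.Injective p) (hd : ∀ i, p i ∉ S₀) (f : ℕ → ZMod 2) :
    ∑ x ∈ S₀ ∪ univ.image p, f x = ∑ u ∈ S₀, f u + ∑ l, f (p l) := by
  rw [Finset.sum_union, Finset.sum_image (fun a _ b _ h => hp h)]
  rw [Finset.disjoint_left]
  intro x hx hx'
  rw [Finset.mem_image] at hx'
  obtain ⟨i, -, rfl⟩ := hx'
  exact hd i hx

theorem ext_sum (hp : Function.Injective p) (hpr : ∀ i, Po (p i)) (k : ι) (d : ι → ZMod 2) :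
    ∑ l, Pool.Agent.N856.JA.QK.ext (fun i => uu (p i))
      (fun e : prs ι => nr (p e.1.1) (p e.1.2)) k l * (d k + d l) =
      ∑ l, nr (p l) (p k) * (d k + d l) := by
  refine Finset.sum_congr rfl fun l _ => ?_
  by_cases hlk : l = k
  · rw [hlk, z2_self, mul_zero, mul_zero]
  congr 1
  unfold Pool.Agent.N856.JA.QK.ext
  by_cases h : (l, k) ∈ prs ι
  · rw [dif_pos h]
  · rw [dif_neg h]
    have h2 : (k, l) ∈ prs ι := by
      unfold prs at h ⊢
      rw [Finset.mem_filter] at h ⊢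
      refine ⟨Finset.mem_univ _, ?_⟩
      rcases lt_trichotomy k l with h1 | h1 | h1
      · exact h1
      · exact absurd h1.symm hlk
      · exact absurd ⟨Finset.mem_univ _, h1⟩ h
    rw [dif_pos h2]
    have h3 := nr_recip (hpr k) (hpr l) (fun h => hlk (hp h).symm)
    exact (z2_swap h3).symm

/-- the good sets, with the variables in the order of the block systems -/
theorem gd_sol {S : Finset ℕ} (hS : ∀ u ∈ S, Po u) : Gd false 0 0 S ↔
    ∀ x : ℕ → ZMod 2, (∀ q ∈ S, ∑ v ∈ S, nr v q * (x q + x v) = 0) →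
      ∀ a ∈ S, ∀ b ∈ S, x a = x b := by
  unfold Gd
  have hV : Vt false S = S := by
    unfold Vt
    rw [if_neg (by decide)]
  rw [hV]
  have e1 : ∀ (x : ℕ → ZMod 2) (q : ℕ), ∑ v ∈ S, (x v + x q) * sy 0 0 q v =
      ∑ v ∈ S, nr v q * (x q + x v) := by
    intro x q
    refine Finset.sum_congr rfl fun v hv => ?_
    unfold sy
    rw [if_neg (hS v hv).2, add_comm (x v), mul_comm]
  simp only [e1]

/-- the systems of a set and of the blocks -/
theorem gd_iff [Nonempty ι] {T : Finset ℕ} (hST : S₀ ⊆ T) (hp : Function.Injective p)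
    (hpr : ∀ i, Po (p i)) (hT : ∀ u ∈ T, Po u) (hd : ∀ i, p i ∉ T) :
    Gd false 0 0 (S₀ ∪ univ.image p) ↔ GdR (univ.filter fun u : T => (u : ℕ) ∈ S₀)
      (fun u : T => uu u) (fun i => uu (p i)) (fun u v : T => nr v u) (fun (u : T) l => nr (p l) u)
      (Pool.Agent.N856.JA.QK.ext (fun i => uu (p i)) fun e : prs ι => nr (p e.1.1) (p e.1.2)) := by
  have hS₀ : ∀ u ∈ S₀, Po u := fun u hu => hT u (hST hu)
  have hd0 : ∀ i, p i ∉ S₀ := fun i h => hd i (hST h)
  have hS : ∀ u ∈ S₀ ∪ univ.image p, Po u := by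
    intro u hu
    rw [Finset.mem_union, Finset.mem_image] at hu
    rcases hu with hu | ⟨i, -, rfl⟩
    · exact hS₀ u hu
    · exact hpr i
  have hsol : ∀ c : ℕ → ZMod 2, (∀ q ∈ S₀ ∪ univ.image p,
        ∑ v ∈ S₀ ∪ univ.image p, nr v q * (c q + c v) = 0) ↔
      (∀ u ∈ univ.filter (fun u : T => (u : ℕ) ∈ S₀),
        ∑ v ∈ univ.filter (fun u : T => (u : ℕ) ∈ S₀), nr v u * (c u + c v) +
        ∑ l, nr (p l) u * (c u + c (p l)) = 0) ∧
      (∀ k : ι, ∑ u ∈ univ.filter (fun u : T => (u : ℕ) ∈ S₀),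
          (nr (p k) u + uu u * uu (p k)) * (c (p k) + c u) +
        ∑ l, Pool.Agent.N856.JA.QK.ext (fun i => uu (p i))
          (fun e : prs ι => nr (p e.1.1) (p e.1.2)) k l * (c (p k) + c (p l)) = 0) := by
    intro c
    have hsym : ∀ k : ι, ∑ u ∈ S₀, nr u (p k) * (c (p k) + c u) =
        ∑ u ∈ S₀, (nr (p k) u + uu u * uu (p k)) * (c (p k) + c u) := by
      intro k
      refine Finset.sum_congr rfl fun u hu => ?_
      rw [cs_sw hpr hS₀ hd0 k hu]
    constructor
    · intro h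
      refine ⟨fun u hu => ?_, fun k => ?_⟩
      · have := h u (Finset.mem_union_left _ (Finset.mem_filter.1 hu).2)
        rw [sum_un hp hd0] at this
        rw [sumW' hST (fun v => nr v u * (c u + c v))]
        exact this
      · have := h (p k) (Finset.mem_union_right _ (Finset.mem_image_of_mem _ (Finset.mem_univ _)))
        rw [sum_un hp hd0, hsym] at this
        rw [ext_sum hp hpr k (fun l => c (p l)),
          sumW' hST (fun u => (nr (p k) u + uu u * uu (p k)) * (c (p k) + c u))]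
        exact this
    · rintro ⟨h1, h2⟩ x hx
      rw [sum_un hp hd0]
      rw [Finset.mem_union, Finset.mem_image] at hx
      rcases hx with hx | ⟨k, -, rfl⟩
      · have := h1 ⟨x, hST hx⟩ (Finset.mem_filter.2 ⟨Finset.mem_univ _, hx⟩)
        rw [sumW' hST (fun v => nr v x * (c x + c v))] at this
        exact this
      · have := h2 k
        rw [ext_sum hp hpr k (fun l => c (p l)),
          sumW' hST (fun u => (nr (p k) u + uu u * uu (p k)) * (c (p k) + c u))] at this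
        rw [hsym]
        exact this
  rw [gd_sol hS]
  unfold GdR
  constructor
  · intro h c d h1 h2
    obtain ⟨c', hc'⟩ : ∃ c' : ℕ → ZMod 2, ∀ n, c' n = if h : n ∈ T then c ⟨n, h⟩ else
      if h : ∃ l, p l = n then d h.choose else 0 := ⟨_, fun n => rfl⟩
    have e1 : ∀ u : T, c' u = c u := by
      intro u
      rw [hc', dif_pos u.2]
    have e2 : ∀ l, c' (p l) = d l := by
      intro l
      have hex : ∃ l', p l' = p l := ⟨l, rfl⟩
      rw [hc', dif_neg (hd l), dif_pos hex]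
      exact congrArg d (hp hex.choose_spec)
    have h3 := h c' (by
      rw [hsol]
      refine ⟨fun u hu => ?_, fun k => ?_⟩
      · simp only [e1, e2]
        exact h1 u hu
      · simp only [e1, e2]
        exact h2 k)
    refine ⟨fun u hu l => ?_, fun k l => ?_⟩
    · rw [← e1, ← e2]
      exact h3 _ (Finset.mem_union_left _ (Finset.mem_filter.1 hu).2) _
        (Finset.mem_union_right _ (Finset.mem_image_of_mem _ (Finset.mem_univ _)))
    · rw [← e2, ← e2]
      exact h3 _ (Finset.mem_union_right _ (Finset.mem_image_of_mem _ (Finset.mem_univ _))) _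
        (Finset.mem_union_right _ (Finset.mem_image_of_mem _ (Finset.mem_univ _)))
  · intro h c hc
    rw [hsol] at hc
    obtain ⟨ht1, ht2⟩ := h (fun u => c u) (fun l => c (p l)) (fun u hu => hc.1 u hu)
      (fun k => hc.2 k)
    obtain ⟨l₀⟩ := (inferInstance : Nonempty ι)
    have key : ∀ x ∈ S₀ ∪ univ.image p, c x = c (p l₀) := by
      intro x hx
      rw [Finset.mem_union, Finset.mem_image] at hx
      rcases hx with hx | ⟨k, -, rfl⟩
      · exact ht1 ⟨x, hST hx⟩ (Finset.mem_filter.2 ⟨Finset.mem_univ _, hx⟩) l₀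
      · exact ht2 k l₀
    intro a ha b hb
    rw [key a ha, key b hb]

end base

/-- the small primes of the `i`-th system -/
noncomputable def WW {I : Type} [Fintype I] (F : I → Finset ℕ) (S₀ : Finset ℕ) (i : I) :
    Finset (S₀ ∪ ZZ F : Finset ℕ) :=
  univ.filter fun u => (u : ℕ) ∈ S₀ ∪ F i

theorem sub_ZZ {I : Type} [Fintype I] (F : I → Finset ℕ) (i : I) : F i ⊆ ZZ F := by
  intro x hx
  unfold ZZ
  rw [Finset.mem_biUnion]
  exact ⟨i, Finset.mem_univ _, hx⟩

theorem sub_T {I : Type} [Fintype I] (F : I → Finset ℕ) (S₀ : Finset ℕ) (i : I) :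
    S₀ ∪ F i ⊆ S₀ ∪ ZZ F := Finset.union_subset_union_right (sub_ZZ F i)

theorem disj {I : Type} [Fintype I] {F : I → Finset ℕ} {S₀ : Finset ℕ}
    (h : Disjoint S₀ (ZZ F)) (i : I) : Disjoint S₀ (F i) :=
  Finset.disjoint_of_subset_right (sub_ZZ F i) h

section one

variable {I : Type} [Fintype I] {F : I → Finset ℕ} {S₀ : Finset ℕ}
  {ι : Type} [Fintype ι] [LinearOrder ι] {p : ι → ℕ}

/-- the label condition -/
def LNJ (F : I → Finset ℕ) (K V : ℕ) (S₀ : Finset ℕ)
    (β : ι → ((S₀ ∪ ZZ F : Finset ℕ) → ZMod 2) × ZMod 2) : Prop :=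
  LN (S₀ ∪ ZZ F) β ∧
  (∀ i j : I, K * (S₀ ∪ ZZ F).card + V ≤
    (univ.filter fun k => La (fun u : (S₀ ∪ ZZ F : Finset ℕ) => uu u) (fun k => (β k).2)
        (fun u l => (β l).1 u) (WW F S₀ i) k +
      La (fun u : (S₀ ∪ ZZ F : Finset ℕ) => uu u) (fun k => (β k).2)
        (fun u l => (β l).1 u) (WW F S₀ j) k + (β k).2 = 1).card) ∧
  ∀ i j : I, i ≠ j → K * (S₀ ∪ ZZ F).card + V ≤
    (univ.filter fun k => La (fun u : (S₀ ∪ ZZ F : Finset ℕ) => uu u) (fun k => (β k).2)
        (fun u l => (β l).1 u) (WW F S₀ i) k +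
      La (fun u : (S₀ ∪ ZZ F : Finset ℕ) => uu u) (fun k => (β k).2)
        (fun u l => (β l).1 u) (WW F S₀ j) k = 1).card

omit [Fintype ι] [LinearOrder ι] in
theorem la_eq (hpr : ∀ i, Po (p i)) (hT : ∀ u ∈ S₀ ∪ ZZ F, Po u)
    (hd : ∀ i, p i ∉ S₀ ∪ ZZ F) (hdis : Disjoint S₀ (ZZ F)) (i : I) (k : ι) :
    La (fun u : (S₀ ∪ ZZ F : Finset ℕ) => uu u) (fun k => uu (p k))
      (fun (u : (S₀ ∪ ZZ F : Finset ℕ)) l => nr (p l) u) (WW F S₀ i) k =
    ∑ u ∈ S₀, nr u (p k) + ∑ u ∈ F i, nr u (p k) := by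
  unfold La
  have e1 : ∀ u ∈ WW F S₀ i, nr (p k) (u : ℕ) + uu (u : ℕ) * uu (p k) = nr (u : ℕ) (p k) := by
    intro u _
    rw [cs_sw hpr hT hd k u.2]
  rw [Finset.sum_congr rfl e1]
  unfold WW
  rw [sumW' (sub_T F S₀ i) (fun u => nr u (p k)), Finset.sum_union (disj hdis i)]

omit [Fintype ι] [LinearOrder ι] in
theorem la_add (hpr : ∀ i, Po (p i)) (hT : ∀ u ∈ S₀ ∪ ZZ F, Po u)
    (hd : ∀ i, p i ∉ S₀ ∪ ZZ F) (hdis : Disjoint S₀ (ZZ F)) (i j : I) (k : ι) :
    La (fun u : (S₀ ∪ ZZ F : Finset ℕ) => uu u) (fun k => uu (p k))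
      (fun (u : (S₀ ∪ ZZ F : Finset ℕ)) l => nr (p l) u) (WW F S₀ i) k +
    La (fun u : (S₀ ∪ ZZ F : Finset ℕ) => uu u) (fun k => uu (p k))
      (fun (u : (S₀ ∪ ZZ F : Finset ℕ)) l => nr (p l) u) (WW F S₀ j) k =
    ∑ u ∈ F i, nr u (p k) + ∑ u ∈ F j, nr u (p k) := by
  rw [la_eq hpr hT hd hdis, la_eq hpr hT hd hdis]
  have h := z2_self (∑ u ∈ S₀, nr u (p k))
  linear_combination h

theorem card_im {α β : Type} {i : Fintype α} {q : α → β} (hq : Function.Injective q) (P : β → Prop)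
    {i0 : DecidableEq β} {i1 : DecidablePred P} {i2 : DecidablePred fun k => P (q k)} :
    (@Finset.filter β P i1 (@Finset.image α β i0 q (@Finset.univ α i))).card =
      (@Finset.filter α (fun k => P (q k)) i2 (@Finset.univ α i)).card := by
  rw [Finset.filter_image, Finset.card_image_of_injective _ hq]
  congr 1
  ext k
  simp only [Finset.mem_filter]

omit [LinearOrder ι] in
theorem ndJ_iff (hp : Function.Injective p) (hpr : ∀ i, Po (p i))
    (hT : ∀ u ∈ S₀ ∪ ZZ F, Po u) (hd : ∀ i, p i ∉ S₀ ∪ ZZ F) (hdis : Disjoint S₀ (ZZ F))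
    (K V : ℕ) :
    NdJ F K V S₀ (univ.image p) ↔ LNJ F K V S₀ (fun i => lb (S₀ ∪ ZZ F) (p i)) := by
  unfold NdJ LNJ
  refine and_congr nd_iff (and_congr ?_ ?_)
  · refine forall_congr' fun i => forall_congr' fun j => ?_
    rw [card_im hp]
    have e : (univ.filter fun k => ∑ u ∈ F i, nr u (p k) + ∑ u ∈ F j, nr u (p k) + uu (p k) = 1) =
        (univ.filter fun k => La (fun u : (S₀ ∪ ZZ F : Finset ℕ) => uu u)
          (fun k => (lb (S₀ ∪ ZZ F) (p k)).2)
          (fun u l => (lb (S₀ ∪ ZZ F) (p l)).1 u) (WW F S₀ i) k +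
        La (fun u : (S₀ ∪ ZZ F : Finset ℕ) => uu u) (fun k => (lb (S₀ ∪ ZZ F) (p k)).2)
          (fun u l => (lb (S₀ ∪ ZZ F) (p l)).1 u) (WW F S₀ j) k +
          (lb (S₀ ∪ ZZ F) (p k)).2 = 1) := by
      refine Finset.filter_congr fun k _ => ?_
      rw [← la_add hpr hT hd hdis i j k]
      exact Iff.rfl
    rw [e]
  · refine forall_congr' fun i => forall_congr' fun j => imp_congr_right fun _ => ?_
    rw [card_im hp]
    have e : (univ.filter fun k => ∑ u ∈ F i, nr u (p k) + ∑ u ∈ F j, nr u (p k) = 1) =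
        (univ.filter fun k => La (fun u : (S₀ ∪ ZZ F : Finset ℕ) => uu u)
          (fun k => (lb (S₀ ∪ ZZ F) (p k)).2)
          (fun u l => (lb (S₀ ∪ ZZ F) (p l)).1 u) (WW F S₀ i) k +
        La (fun u : (S₀ ∪ ZZ F : Finset ℕ) => uu u) (fun k => (lb (S₀ ∪ ZZ F) (p k)).2)
          (fun u l => (lb (S₀ ∪ ZZ F) (p l)).1 u) (WW F S₀ j) k = 1) := by
      refine Finset.filter_congr fun k _ => ?_
      rw [← la_add hpr hT hd hdis i j k]
      exact Iff.rfl
    rw [e]

theorem gdJ_iff [Nonempty ι] (hp : Function.Injective p) (hpr : ∀ i, Po (p i))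
    (hT : ∀ u ∈ S₀ ∪ ZZ F, Po u) (hd : ∀ i, p i ∉ S₀ ∪ ZZ F) :
    GdJ F (S₀ ∪ univ.image p) ↔ ∀ i : I, GdR (WW F S₀ i)
      (fun u : (S₀ ∪ ZZ F : Finset ℕ) => uu u) (fun k => uu (p k))
      (fun u v : (S₀ ∪ ZZ F : Finset ℕ) => nr v u)
      (fun (u : (S₀ ∪ ZZ F : Finset ℕ)) l => nr (p l) u)
      (Pool.Agent.N856.JA.QK.ext (fun i => uu (p i)) fun e : prs ι => nr (p e.1.1) (p e.1.2)) := by
  unfold GdJ
  refine forall_congr' fun i => ?_
  rw [Finset.union_right_comm]
  exact gd_iff (sub_T F S₀ i) hp hpr hT hd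

end one

theorem HB_sub {ι : Type} {C : ι → Finset ℕ} {X : ι → ℕ} {κ : ℝ}
    (h : HB C X κ) (P : ι → ℕ → Prop) [∀ i, DecidablePred (P i)] :
    HB (fun i => (C i).filter (P i)) X κ := by
  intro i l hil c d hc hd
  have h1 := h i l hil (fun x => if P i x then c x else 0) (fun y => if P l y then d y else 0)
    (fun x => by
      split_ifs
      · exact hc x
      · simp) (fun y => by
      split_ifs
      · exact hd y
      · simp)
  refine (le_of_eq ?_).trans h1
  congr 1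
  rw [Finset.sum_filter]
  refine Finset.sum_congr rfl fun x _ => ?_
  by_cases hx : P i x
  · rw [if_pos hx, Finset.sum_filter]
    refine Finset.sum_congr rfl fun y _ => ?_
    by_cases hy : P l y
    · rw [if_pos hy, if_pos hx, if_pos hy]
    · rw [if_neg hy, if_neg hy, mul_zero, zero_mul]
  · rw [if_neg hx]
    symm
    refine Finset.sum_eq_zero fun y _ => ?_
    rw [if_neg hx, zero_mul, zero_mul]

/-- **The joint count in a box.** -/
theorem t_BOXJ : S_BOXJ := by
  intro hEQ I _ F hF ε K V hLA ι _ _ C X κ S₀ hκ hCX hHB hS₀ hdZ hC hdis hhyp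
  obtain ⟨R, hR⟩ : ∃ R : ℝ, R = 2 ^ (ps ι).card * (κ * ∏ j, (X j : ℝ)) := ⟨_, rfl⟩
  have hR0 : 0 ≤ R := by
    rw [hR]
    exact mul_nonneg (by positivity)
      (mul_nonneg hκ (Finset.prod_nonneg fun j _ => by positivity))
  have hE0 : 0 ≤ 2 ^ (((S₀ ∪ ZZ F).card + 1) * Fintype.card ι + (ps ι).card) *
      (κ * ∏ j, (X j : ℝ)) :=
    mul_nonneg (by positivity) (mul_nonneg hκ (Finset.prod_nonneg fun j _ => by positivity))
  have hT : ∀ u ∈ S₀ ∪ ZZ F, Po u := by
    intro u hu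
    rw [Finset.mem_union] at hu
    rcases hu with hu | hu
    · exact hS₀ u hu
    · unfold ZZ at hu
      rw [Finset.mem_biUnion] at hu
      obtain ⟨i, -, hi⟩ := hu
      exact hF.po i u hi
  -- no large primes
  by_cases hne : Nonempty ι
  swap
  · have hem : IsEmpty ι := not_nonempty_iff.1 hne
    by_cases hI : Nonempty I
    · obtain ⟨i⟩ := hI
      have hN : ∀ p : ι → ℕ, p ∈ Fintype.piFinset C → ¬ NdJ F K V S₀ (univ.image p) := by
        intro p hp h
        have h1 := hhyp p hp i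
        have h2 : ∃ u ∈ S₀ ∪ ZZ F, (fun _ : ℕ => (1 : ZMod 2)) u ≠ 0 := by
          by_contra hcon
          have h3 : ∀ u, u ∉ S₀ ∪ ZZ F := fun u hu => hcon ⟨u, hu, one_ne_zero⟩
          have h4 : S₀ = ∅ := Finset.eq_empty_of_forall_notMem fun u hu =>
            h3 u (Finset.mem_union_left _ hu)
          have h5 : F i = ∅ := Finset.eq_empty_of_forall_notMem fun u hu =>
            h3 u (Finset.mem_union_right _ (sub_ZZ F i hu))
          rw [h4, h5, Finset.sum_empty, Finset.univ_eq_empty, Finset.sum_empty] at h1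
          exact absurd h1 (by decide)
        obtain ⟨q, hq, -⟩ := h.1 _ h2
        rw [Finset.univ_eq_empty, Finset.image_empty] at hq
        exact absurd hq (Finset.notMem_empty q)
      have e1 : ((Fintype.piFinset C).filter fun p => NdJ F K V S₀ (univ.image p)) = ∅ := by
        rw [Finset.filter_eq_empty_iff]
        exact fun {p} hp => hN p hp
      have e2 : ((Fintype.piFinset C).filter fun p => NdJ F K V S₀ (univ.image p) ∧
          GdJ F (S₀ ∪ univ.image p)) = ∅ := by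
        rw [Finset.filter_eq_empty_iff]
        exact fun {p} hp h => hN p hp h.1
      rw [e1, e2, Finset.card_empty, Nat.cast_zero, mul_zero, mul_zero, sub_zero, abs_zero,
        zero_add]
      exact hE0
    · have hem' : IsEmpty I := not_nonempty_iff.1 hI
      have hε : 0 ≤ ε := by
        have hU : HypR K V (fun i : I => (∅ : Finset (Fin 0))) (fun _ => 0)
            (fun _ : Fin 0 => (0 : ZMod 2)) (fun _ _ => 0) (fun _ _ => 0) := by
          constructor
          · exact fun i => isEmptyElim i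
          · exact fun i => isEmptyElim i
          · exact fun i => isEmptyElim i
          · exact fun u => Fin.elim0 u
          · rintro w ⟨u, -⟩
            exact Fin.elim0 u
        exact (abs_nonneg _).trans (hLA (Fin 0) (Fin 0) _ _ _ _ _ hU)
      have e2 : (((Fintype.piFinset C).filter fun p => NdJ F K V S₀ (univ.image p) ∧
          GdJ F (S₀ ∪ univ.image p)).card) =
          ((Fintype.piFinset C).filter fun p => NdJ F K V S₀ (univ.image p)).card := by
        refine fcc fun p _ => ⟨fun h => h.1, fun h => ⟨h, fun i => isEmptyElim i⟩⟩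
      rw [e2, Fintype.card_eq_zero, pow_zero, one_mul, sub_self, abs_zero]
      exact add_nonneg (mul_nonneg hε (Nat.cast_nonneg _)) hE0
  -- facts on tuples
  have hinj : ∀ p ∈ Fintype.piFinset C, Function.Injective p := by
    intro p hp i j hij
    rw [Fintype.mem_piFinset] at hp
    by_contra hne
    have h1 := Finset.disjoint_left.1 (hdis i j hne) (hp i)
    rw [hij] at h1
    exact h1 (hp j)
  have hd : ∀ p ∈ Fintype.piFinset C, ∀ i, p i ∉ S₀ ∪ ZZ F := by
    intro p hp i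
    rw [Fintype.mem_piFinset] at hp
    exact (hC i _ (hp i)).2
  have hpr : ∀ p ∈ Fintype.piFinset C, ∀ i, Po (p i) := by
    intro p hp i
    rw [Fintype.mem_piFinset] at hp
    exact (hC i _ (hp i)).1
  -- the part with given labels
  have h1 : ∀ β : ι → ((S₀ ∪ ZZ F : Finset ℕ) → ZMod 2) × ZMod 2, LNJ F K V S₀ β →
      |(((Fintype.piFinset C).filter fun p => (fun i => lb (S₀ ∪ ZZ F) (p i)) = β ∧
          GdJ F (S₀ ∪ univ.image p)).card : ℝ) -
        c2 ^ Fintype.card I *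
          (((Fintype.piFinset C).filter fun p => (fun i => lb (S₀ ∪ ZZ F) (p i)) = β).card : ℝ)| ≤
      ε * (((Fintype.piFinset C).filter fun p =>
        (fun i => lb (S₀ ∪ ZZ F) (p i)) = β).card : ℝ) + R := by
    intro β hβ
    by_cases hex : ∃ p ∈ Fintype.piFinset C, (fun i => lb (S₀ ∪ ZZ F) (p i)) = β
    swap
    · have e1 : ((Fintype.piFinset C).filter fun p =>
          (fun i => lb (S₀ ∪ ZZ F) (p i)) = β) = ∅ := by
        rw [Finset.filter_eq_empty_iff]
        intro p hp h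
        exact hex ⟨p, hp, h⟩
      have e2 : ((Fintype.piFinset C).filter fun p => (fun i => lb (S₀ ∪ ZZ F) (p i)) = β ∧
          GdJ F (S₀ ∪ univ.image p)) = ∅ := by
        rw [Finset.filter_eq_empty_iff]
        rintro p hp ⟨h, -⟩
        exact hex ⟨p, hp, h⟩
      rw [e1, e2, Finset.card_empty, Nat.cast_zero, mul_zero, mul_zero, sub_zero, abs_zero,
        zero_add]
      exact hR0
    obtain ⟨q₀, hq₀, hq₀β⟩ := hex
    have hc2 := hhyp q₀ hq₀
    obtain ⟨C', hC'⟩ : ∃ C' : ι → Finset ℕ,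
        C' = fun i => (C i).filter fun q => lb (S₀ ∪ ZZ F) q = β i := ⟨_, rfl⟩
    have hpi : (Fintype.piFinset C).filter (fun p => (fun i => lb (S₀ ∪ ZZ F) (p i)) = β) =
        Fintype.piFinset C' := by
      ext p
      simp only [Finset.mem_filter, Fintype.mem_piFinset, hC']
      constructor
      · rintro ⟨h2, h3⟩ i
        exact ⟨h2 i, congrFun h3 i⟩
      · intro h2
        exact ⟨fun i => (h2 i).1, funext fun i => (h2 i).2⟩
    have htt : ∀ i, (β i).2 = uu (q₀ i) := by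
      intro i
      rw [← hq₀β]
      rfl
    have hH : HypR K V (fun i : I => WW F S₀ i) (fun u : (S₀ ∪ ZZ F : Finset ℕ) => uu u)
        (fun i => (β i).2) (fun u v : (S₀ ∪ ZZ F : Finset ℕ) => nr v u)
        (fun (u : (S₀ ∪ ZZ F : Finset ℕ)) l => (β l).1 u) := by
      constructor
      · intro i j
        rw [Fintype.card_coe]
        exact hβ.2.1 i j
      · intro i j hij
        rw [Fintype.card_coe]
        exact hβ.2.2 i j hij
      · intro i
        simp only [htt]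
        unfold WW
        rw [sumW' (sub_T F S₀ i) (fun u => uu u), Finset.sum_union (disj hdZ i)]
        exact hc2 i
      · intro u v huv
        have h3 := nr_recip (hT u u.2) (hT v v.2) (fun h => huv (Subtype.ext h))
        rw [← h3, add_comm]
      · intro w hw
        exact hβ.1 w hw
    have h2 := hLA (S₀ ∪ ZZ F : Finset ℕ) ι (fun i : I => WW F S₀ i) _ _ _ _ hH
    obtain ⟨Q, hQ⟩ : ∃ Q : (ps ι → ZMod 2) → Prop, Q = fun α => ∀ i : I,
        GdR (WW F S₀ i) (fun u : (S₀ ∪ ZZ F : Finset ℕ) => uu u) (fun i => (β i).2)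
          (fun u v : (S₀ ∪ ZZ F : Finset ℕ) => nr v u)
          (fun (u : (S₀ ∪ ZZ F : Finset ℕ)) l => (β l).1 u)
          (Pool.Agent.N856.JA.QK.ext (fun i => (β i).2) α) := ⟨_, rfl⟩
    have h3 := hEQ ι C' X κ hκ
      (fun i => (Finset.card_le_card (by rw [hC']; exact Finset.filter_subset _ _)).trans (hCX i))
      (by rw [hC']; exact HB_sub hHB fun i q => lb (S₀ ∪ ZZ F) q = β i) Q
    have h4 : ((Fintype.piFinset C).filter fun p => (fun i => lb (S₀ ∪ ZZ F) (p i)) = β ∧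
        GdJ F (S₀ ∪ univ.image p)) = ((Fintype.piFinset C').filter fun p =>
          Q fun e => nr (p e.1.1) (p e.1.2)) := by
      rw [← hpi, Finset.filter_filter]
      refine Finset.filter_congr fun p hp => ?_
      refine and_congr_right fun hl => ?_
      rw [gdJ_iff (hinj p hp) (hpr p hp) hT (hd p hp)]
      subst hl
      rw [hQ]
      exact Iff.rfl
    have h5 : (((Fintype.piFinset C').card : ℕ) : ℝ) = ∏ j, ((C' j).card : ℝ) := by
      rw [Fintype.card_piFinset]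
      push_cast
      rfl
    rw [h4, hpi, h5]
    rw [← hR] at h3
    obtain ⟨n, hn⟩ : ∃ n : ℝ, n = (((Fintype.piFinset C').filter fun p =>
          Q fun e => nr (p e.1.1) (p e.1.2)).card : ℝ) := ⟨_, rfl⟩
    obtain ⟨q, hq⟩ : ∃ q : ℝ, q = ((univ.filter Q).card : ℝ) / 2 ^ (ps ι).card := ⟨_, rfl⟩
    obtain ⟨P, hP⟩ : ∃ P : ℝ, P = ∏ j, ((C' j).card : ℝ) := ⟨_, rfl⟩
    obtain ⟨c, hc⟩ : ∃ c : ℝ, c = c2 ^ Fintype.card I := ⟨_, rfl⟩
    have hP0 : 0 ≤ P := by
      rw [hP]
      exact Finset.prod_nonneg fun j _ => by positivity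
    have e8 : ∀ n1 n2 : ℕ, n1 = n2 →
        |(n2 : ℝ) / 2 ^ (prs ι).card - c2 ^ Fintype.card I| ≤ ε →
        |(n1 : ℝ) / 2 ^ (ps ι).card - c2 ^ Fintype.card I| ≤ ε := by
      rintro n1 n2 rfl h
      exact h
    have h2' : |q - c| ≤ ε := by
      rw [hq, hQ, hc]
      exact e8 _ _ (fcc fun x _ => Iff.rfl) h2
    rw [← hn, ← hq, ← hP] at h3
    rw [← hn, ← hP, ← hc]
    have h6 : |n - c * P| ≤ |n - q * P| + |q - c| * P := by
      have h7 : n - c * P = (n - q * P) + (q - c) * P := by ring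
      have h8 : |(q - c) * P| = |q - c| * P := by rw [abs_mul, abs_of_nonneg hP0]
      rw [h7, ← h8]
      exact abs_add_le _ _
    have h7 : |q - c| * P ≤ ε * P := mul_le_mul_of_nonneg_right h2' hP0
    linarith
  -- sum over the labels
  obtain ⟨LL, hLL⟩ : ∃ LL : Finset (ι → ((S₀ ∪ ZZ F : Finset ℕ) → ZMod 2) × ZMod 2),
      LL = univ.filter (fun β => LNJ F K V S₀ β) := ⟨_, rfl⟩
  have hfib : ∀ T : (ι → ℕ) → Prop,
      (((Fintype.piFinset C).filter fun p => NdJ F K V S₀ (univ.image p) ∧ T p).card : ℝ) =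
      ∑ β ∈ LL, (((Fintype.piFinset C).filter fun p =>
        (fun i => lb (S₀ ∪ ZZ F) (p i)) = β ∧ T p).card : ℝ) := by
    intro T
    rw [Finset.card_eq_sum_card_fiberwise (f := fun (p : ι → ℕ) (i : ι) => lb (S₀ ∪ ZZ F) (p i))
      (t := LL) (by
        intro p hp
        rw [Finset.mem_coe, Finset.mem_filter] at hp
        rw [Finset.mem_coe, hLL, Finset.mem_filter]
        exact ⟨Finset.mem_univ _,
          (ndJ_iff (hinj p hp.1) (hpr p hp.1) hT (hd p hp.1) hdZ K V).1 hp.2.1⟩)]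
    push_cast
    refine Finset.sum_congr rfl fun β hβ => ?_
    rw [hLL, Finset.mem_filter] at hβ
    congr 2
    ext p
    simp only [Finset.mem_filter]
    constructor
    · rintro ⟨⟨h3, h4, h4'⟩, h5⟩
      exact ⟨h3, h5, h4'⟩
    · rintro ⟨h3, h4, h5⟩
      refine ⟨⟨h3, ?_, h5⟩, h4⟩
      rw [ndJ_iff (hinj p h3) (hpr p h3) hT (hd p h3) hdZ K V, h4]
      exact hβ.2
  have hf1 := hfib fun p => GdJ F (S₀ ∪ univ.image p)
  have hf2 := hfib fun _ => True
  simp only [and_true] at hf2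
  rw [hf1, hf2, Finset.mul_sum, ← Finset.sum_sub_distrib]
  refine (Finset.abs_sum_le_sum_abs _ _).trans ?_
  refine (Finset.sum_le_sum fun β hβ => h1 β (by
    rw [hLL] at hβ
    exact (Finset.mem_filter.1 hβ).2)).trans ?_
  rw [Finset.sum_add_distrib, ← Finset.mul_sum, Finset.sum_const, nsmul_eq_mul]
  have h5 : ((LL.card : ℕ) : ℝ) ≤ 2 ^ (((S₀ ∪ ZZ F).card + 1) * Fintype.card ι) := by
    have h6 : LL.card ≤
        Fintype.card (ι → ((S₀ ∪ ZZ F : Finset ℕ) → ZMod 2) × ZMod 2) :=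
      Finset.card_le_univ _
    rw [Fintype.card_fun, Fintype.card_prod, Fintype.card_fun, ZMod.card,
      Fintype.card_coe] at h6
    have h7 : 2 ^ (S₀ ∪ ZZ F).card * 2 = 2 ^ ((S₀ ∪ ZZ F).card + 1) := by ring
    rw [h7, ← pow_mul] at h6
    exact_mod_cast h6
  have h6 := mul_le_mul_of_nonneg_right h5 hR0
  rw [pow_add, mul_assoc, ← hR]
  linarith

end Pool.Agent.N588.JL
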